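import Pool.Agent.Lib.MP_6f5d92_co.BipM

namespace Pool.Agent.Lib.MP_6f5d92_co.Old.Bipartite

open Pool.Agent.Lib.MP_6f5d92_co

/-- Let `P i` be planar convex sets in three-space, `S i` the set of sides of `P i`; no side
belongs to three of the sets, and two sets with a common side are not coplanar.  If each of `s`
sets shares a side with each of `t` other sets and `3 ≤ s ≤ t`, then `2 s + t ≤ 14`. -/
theorem result (ι : Type) (P : ι → Set (Fin 3 → ℝ)) (S : ι → Set (Set (Fin 3 → ℝ)))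
    (hc : ∀ i, Convex ℝ (P i)) (hpl : ∀ i, Coplanar ℝ (P i))
    (hS : ∀ i e, e ∈ S i ↔ IsExtreme ℝ (P i) e ∧ ∃ a b, a ≠ b ∧ e = segment ℝ a b)
    (h2 : ∀ i j k e, e ∈ S i → e ∈ S j → e ∈ S k → i = j ∨ i = k ∨ j = k)
    (hnc : ∀ i j, i ≠ j → ∀ e ∈ S i, e ∈ S j → ¬ Coplanar ℝ (P i ∪ P j))
    (R T : Finset ι) (hd : Disjoint R T) (h : ∀ r ∈ R, ∀ j ∈ T, ∃ e ∈ S r, e ∈ S j)
    (h3 : 3 ≤ R.card) (hle : R.card ≤ T.card) : 2 * R.card + T.card ≤ 14 := by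
  by_contra hn
  obtain ⟨s, t, hst, hs, ht⟩ : ∃ s t, (s = 3 ∧ t = 9 ∨ s = 4 ∧ t = 7 ∨ s = 5 ∧ t = 5) ∧
      s ≤ R.card ∧ t ≤ T.card := by
    by_cases q : R.card = 3
    · exact ⟨3, 9, by omega⟩
    by_cases q' : R.card = 4
    · exact ⟨4, 7, by omega⟩
    · exact ⟨5, 5, by omega⟩
  obtain ⟨ρ⟩ : Nonempty (Fin s ↪ R) := Function.Embedding.nonempty_of_card_le (by simpa using hs)
  obtain ⟨θ⟩ : Nonempty (Fin t ↪ T) := Function.Embedding.nonempty_of_card_le (by simpa using ht)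
  have ne : ∀ r j, (ρ r : ι) ≠ θ j := fun r j e =>
    Finset.disjoint_left.1 hd (ρ r).2 (e ▸ (θ j).2)
  have k : ∀ r j, ∃ a b, a ≠ b ∧ segment ℝ a b ∈ S (ρ r) ∧ segment ℝ a b ∈ S (θ j) :=
    fun r j => by
      obtain ⟨e, h1, h4⟩ := h _ (ρ r).2 _ (θ j).2
      obtain ⟨-, a, b, ab, rfl⟩ := (hS _ _).1 h1
      exact ⟨a, b, ab, h1, h4⟩
  choose a b ab h1 h4 using k
  exact Bip.small hst (fun r => P (ρ r)) (fun j => P (θ j)) a b (fun _ => hc _)
    (fun _ => hpl _) (fun _ => hc _) (fun _ => hpl _) ab (fun r j => ((hS _ _).1 (h1 r j)).1)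
    (fun r j => ((hS _ _).1 (h4 r j)).1)
    (fun r q j h e => by
      rcases h2 _ _ _ _ (h1 r j) (e ▸ h1 q j) (h4 r j) with e' | e' | e'
      exacts [h (ρ.injective (Subtype.ext e')).symm, ne r j e', ne q j e'])
    (fun r j l h e => by
      rcases h2 _ _ _ _ (h1 r j) (h4 r j) (e ▸ h4 r l) with e' | e' | e'
      exacts [ne r j e', ne r l e', h (θ.injective (Subtype.ext e')).symm])
    fun r j => hnc _ _ (ne r j) _ (h1 r j) (h4 r j)

end Pool.Agent.Lib.MP_6f5d92_co.Old.Bipartite
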