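import Pool.Agent.Lib.MP_6f5d92_co.Three

namespace Pool.Agent.Lib.MP_6f5d92_co.Old.ThreeFaces

open Pool.Agent.Lib.MP_6f5d92_co

/-- Let `P i` be planar convex sets in three-space, `S i` the set of sides of `P i`.  If no side
belongs to three of the sets and two sets with a common side are not coplanar, then any three of
the sets have at most eight common neighbours along sides. -/
theorem result (ι : Type) (P : ι → Set (Fin 3 → ℝ)) (S : ι → Set (Set (Fin 3 → ℝ)))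
    (hc : ∀ i, Convex ℝ (P i)) (hpl : ∀ i, Coplanar ℝ (P i))
    (hS : ∀ i e, e ∈ S i ↔ IsExtreme ℝ (P i) e ∧ ∃ a b, a ≠ b ∧ e = segment ℝ a b)
    (h2 : ∀ i j k e, e ∈ S i → e ∈ S j → e ∈ S k → i = j ∨ i = k ∨ j = k)
    (hnc : ∀ i j, i ≠ j → ∀ e ∈ S i, e ∈ S j → ¬ Coplanar ℝ (P i ∪ P j))
    (R : Fin 3 → ι) (hR : Function.Injective R) :
    {j | ∀ r, j ≠ R r ∧ ∃ e ∈ S (R r), e ∈ S j}.encard ≤ 8 := by
  set T := {j | ∀ r, j ≠ R r ∧ ∃ e ∈ S (R r), e ∈ S j}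
  have k : ∀ (r : Fin 3) (j : T), ∃ a b, a ≠ b ∧ segment ℝ a b ∈ S (R r) ∧
      segment ℝ a b ∈ S j := fun r j => by
    obtain ⟨e, h1, h3⟩ := (j.2 r).2
    obtain ⟨-, a, b, ab, rfl⟩ := (hS _ _).1 h1
    exact ⟨a, b, ab, h1, h3⟩
  choose a b ab h1 h3 using k
  obtain ⟨κ, hκ⟩ := Three.three (fun r => P (R r)) (fun j : T => P j) a b (fun _ => hc _)
    (fun _ => hpl _) (fun _ => hc _) (fun _ => hpl _) ab (fun r j => ((hS _ _).1 (h1 r j)).1)
    (fun r j => ((hS _ _).1 (h3 r j)).1)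
    (fun r q j h e => by
      rcases h2 _ _ _ _ (h1 r j) (e ▸ h1 q j) (h3 r j) with e' | e' | e'
      exacts [h (hR e').symm, (j.2 r).1 e'.symm, (j.2 q).1 e'.symm])
    (fun r j l h e => by
      rcases h2 _ _ _ _ (h1 r j) (h3 r j) (e ▸ h3 r l) with e' | e' | e'
      exacts [(j.2 r).1 e'.symm, (l.2 r).1 e'.symm, h (Subtype.ext e'.symm)])
    fun r j => hnc _ _ (j.2 r).1.symm _ (h1 r j) (h3 r j)
  have := ENat.card_le_card_of_injective hκ
  simpa using this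

end Pool.Agent.Lib.MP_6f5d92_co.Old.ThreeFaces
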